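import Mathlib

/-!
The NF-number of the dumbbell graph `B_{n,m}` is `n + m + 2` for `n, m ≥ 2`, `(n, m) ≠ (2, 2)`.
-/

namespace Pool.Agent.Results.MP_0a7d83_co.Formula

open Finset

section defs

variable {V : Type}

/-- A facet of a complex: an inclusion-maximal face. -/
def IsFacet (Δ : Set (Finset V)) (F : Finset V) : Prop := F ∈ Δ ∧ ∀ G ∈ Δ, F ⊆ G → G = F

/-- The NF-complex: the subsets of `V` containing no facet of `Δ`. -/
def delta (Δ : Set (Finset V)) : Set (Finset V) := {G | ∀ F, IsFacet Δ F → ¬ F ⊆ G}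

/-- Isomorphism of complexes on the vertex set `V`. -/
def Iso (Δ Γ : Set (Finset V)) : Prop :=
  ∃ π : V ≃ V, ∀ F : Finset V, F ∈ Δ ↔ F.map π.toEmbedding ∈ Γ

/-- `q` is the NF-number of `Δ`: the least `q > 0` with `δ^q(Δ) ≅ Δ`. -/
def IsNFNumber (Δ : Set (Finset V)) (q : ℕ) : Prop :=
  IsLeast {k | 0 < k ∧ Iso (delta^[k] Δ) Δ} q

/-- A graph as a complex: the faces are the subsets of edges. -/
def graphComplex [DecidableEq V] (G : SimpleGraph V) : Set (Finset V) :=
  {F | ∃ u v, G.Adj u v ∧ F ⊆ {u, v}}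

/-- The dumbbell graph: complete graphs on `Fin n` and on `Fin m`, joined by a bridge between
their first vertices. -/
def dumbbell (n m : ℕ) : SimpleGraph (Fin n ⊕ Fin m) where
  Adj
    | Sum.inl i, Sum.inl j => i ≠ j
    | Sum.inr i, Sum.inr j => i ≠ j
    | Sum.inl i, Sum.inr j => i.val = 0 ∧ j.val = 0
    | Sum.inr i, Sum.inl j => i.val = 0 ∧ j.val = 0
  symm := ⟨by rintro (i | i) (j | j) h <;> first | exact Ne.symm h | exact And.symm h⟩
  loopless := ⟨by rintro (i | i) h <;> exact h rfl⟩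

end defs

variable {V : Type} [Fintype V] [DecidableEq V] {A B : Finset V} {x y : V}

structure Setup (A B : Finset V) (x y : V) : Prop where
  mem : ∀ v, v ∈ A ↔ v ∉ B
  hx : x ∈ A
  hy : y ∈ B
  cA : 2 ≤ #A
  cB : 2 ≤ #B

def NS (A B : Finset V) (x y : V) (F : Finset V) : Prop :=
  ¬ A ⊆ F ∧ ¬ B ⊆ F ∧ ¬ (x ∈ F ∧ y ∈ F)

def Pure (A B : Finset V) (F : Finset V) : Prop := F ⊆ A ∨ F ⊆ B

omit [Fintype V] [DecidableEq V] in
lemma Setup.symm (S : Setup A B x y) : Setup B A y x :=
  ⟨fun v => by have := S.mem v; tauto, S.hy, S.hx, S.cB, S.cA⟩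

omit [Fintype V] [DecidableEq V] in
lemma NS_symm {F : Finset V} : NS B A y x F ↔ NS A B x y F := by unfold NS; tauto

omit [Fintype V] [DecidableEq V] in
lemma Pure_symm {F : Finset V} : Pure B A F ↔ Pure A B F := by unfold Pure; tauto

omit [Fintype V] [DecidableEq V] in
lemma NS.mono {F G : Finset V} (h : NS A B x y G) (hFG : F ⊆ G) : NS A B x y F :=
  ⟨fun k => h.1 (k.trans hFG), fun k => h.2.1 (k.trans hFG),
    fun k => h.2.2 ⟨hFG k.1, hFG k.2⟩⟩

omit [Fintype V] [DecidableEq V] in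
lemma Pure.mono {F G : Finset V} (h : Pure A B G) (hFG : F ⊆ G) : Pure A B F :=
  h.imp (fun k => hFG.trans k) fun k => hFG.trans k

omit [Fintype V] [DecidableEq V] in
lemma Setup.ne (S : Setup A B x y) {u w : V} (hu : u ∈ A) (hw : w ∈ B) : u ≠ w := by
  rintro rfl
  exact (S.mem u).1 hu hw

lemma Setup.card (S : Setup A B x y) : #A + #B = Fintype.card V := by
  have : B = Aᶜ := by
    ext v; have := S.mem v; rw [mem_compl]; tauto
  rw [this, card_add_card_compl]

omit [Fintype V] in
lemma Setup.split (S : Setup A B x y) (F : Finset V) : #(F ∩ A) + #(F ∩ B) = #F := by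
  have : F ∩ B = F \ A := by
    ext v; have := S.mem v; simp only [mem_inter, mem_sdiff]; tauto
  rw [this, add_comm, card_sdiff_add_card_inter]

omit [Fintype V] [DecidableEq V] in
lemma Setup.other (S : Setup A B x y) (u : V) : ∃ v ∈ A, v ≠ u :=
  exists_mem_ne (by have := S.cA; omega) u

omit [Fintype V] [DecidableEq V] in
lemma Setup.not_pure (S : Setup A B x y) {F : Finset V} {u w : V} (hu : u ∈ A) (hw : w ∈ B)
    (huF : u ∈ F) (hwF : w ∈ F) : ¬ Pure A B F := by
  rintro (h | h)
  · exact (S.mem w).1 (h hwF) hw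
  · exact (S.mem u).1 hu (h huF)

omit [Fintype V] [DecidableEq V] in
lemma Setup.of_not_pure (S : Setup A B x y) {F : Finset V} (h : ¬ Pure A B F) :
    ∃ u ∈ A, ∃ w ∈ B, u ∈ F ∧ w ∈ F := by
  unfold Pure at h
  push Not at h
  obtain ⟨w, hw, hw'⟩ := not_subset.1 h.1
  obtain ⟨u, hu, hu'⟩ := not_subset.1 h.2
  exact ⟨u, (S.mem u).2 hu', w, (S.symm.mem w).2 hw', hu, hw⟩

omit [Fintype V] [DecidableEq V] in
/-- A subset of `A` is special only if it is `A`. -/
lemma Setup.special_sub (S : Setup A B x y) {F : Finset V} (hF : F ⊆ A)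
    (h : ¬ NS A B x y F) : A ⊆ F := by
  by_contra hA
  exact h ⟨hA, fun k => (S.mem y).1 (hF (k S.hy)) S.hy, fun k => (S.mem y).1 (hF k.2) S.hy⟩

omit [Fintype V] in
lemma Setup.ins (S : Setup A B x y) {T : Finset V} {u w : V} (hT : T ⊆ A) (hT' : ¬ A ⊆ T)
    (hu : u ∈ T) (hw : w ∈ B) (hxy : ¬ (x ∈ T ∧ w = y)) :
    NS A B x y (insert w T) ∧ ¬ Pure A B (insert w T) ∧ #(insert w T) = #T + 1 := by
  refine ⟨⟨fun k => hT' fun v hv => ?_, fun k => ?_, fun k => hxy ⟨?_, ?_⟩⟩,
    S.not_pure (hT hu) hw (mem_insert_of_mem hu) (mem_insert_self _ _),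
    card_insert_of_notMem fun k => (S.mem w).1 (hT k) hw⟩
  · exact (mem_insert.1 (k hv)).resolve_left (S.ne hv hw)
  · obtain ⟨v, hv, hvw⟩ := S.symm.other w
    exact (S.mem v).1 (hT ((mem_insert.1 (k hv)).resolve_left hvw)) hv
  · exact (mem_insert.1 k.1).resolve_left (S.ne S.hx hw)
  · rcases mem_insert.1 k.2 with h | h
    · exact h.symm
    · exact ((S.mem y).1 (hT h) S.hy).elim

omit [Fintype V] in
lemma Setup.pair (S : Setup A B x y) {u w : V} (hu : u ∈ A) (hw : w ∈ B)
    (hxy : ¬ (u = x ∧ w = y)) :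
    NS A B x y {w, u} ∧ ¬ Pure A B {w, u} ∧ #({w, u} : Finset V) = 2 := by
  have := S.ins (T := {u}) (u := u) (w := w) (by simpa using hu)
    (fun k => by have := card_le_card k; have := S.cA; simp at *; omega) (by simp) hw
    (by simp only [mem_singleton]; exact fun k => hxy ⟨k.1.symm, k.2⟩)
  simpa using this

omit [Fintype V] in
lemma Setup.cross_pair (S : Setup A B x y) {G : Finset V} (h1 : ¬ Pure A B G)
    (h2 : G ≠ {x, y}) : ∃ F ⊆ G, NS A B x y F ∧ ¬ Pure A B F ∧ #F = 2 := by
  obtain ⟨u, hu, w, hw, huG, hwG⟩ := S.of_not_pure h1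
  have key : ∀ u ∈ A, ∀ w ∈ B, u ∈ G → w ∈ G → ¬ (u = x ∧ w = y) →
      ∃ F ⊆ G, NS A B x y F ∧ ¬ Pure A B F ∧ #F = 2 := fun u hu w hw huG hwG h =>
    ⟨{w, u}, by intro v hv; simp only [mem_insert, mem_singleton] at hv; rcases hv with rfl | rfl <;>
      assumption, S.pair hu hw h⟩
  by_cases h : u = x ∧ w = y
  · obtain ⟨rfl, rfl⟩ := h
    have : ¬ G ⊆ {u, w} := fun k => h2 (Subset.antisymm k (by
      intro v hv; simp only [mem_insert, mem_singleton] at hv; rcases hv with rfl | rfl <;>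
        assumption))
    obtain ⟨z, hz, hz'⟩ := not_subset.1 this
    simp only [mem_insert, mem_singleton, not_or] at hz'
    by_cases hzA : z ∈ A
    · exact key z hzA w hw hz hwG fun k => hz'.1 k.1
    · exact key u hu z ((S.symm.mem z).2 hzA) huG hz fun k => hz'.2 k.2
  · exact key u hu w hw huG hwG h

omit [Fintype V] in
lemma Setup.ext_aux (S : Setup A B x y) {F : Finset V} (h : NS A B x y F)
    (hc : #(F ∩ A) + 2 ≤ #A) : ∃ v ∉ F, NS A B x y (insert v F) := by
  have h1 : 1 < #(A \ F) := by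
    have := card_sdiff_add_card_inter A F
    rw [inter_comm] at this
    omega
  obtain ⟨v, hv, hvx⟩ := exists_mem_ne h1 x
  obtain ⟨v', hv', hvv⟩ := exists_mem_ne h1 v
  rw [mem_sdiff] at hv hv'
  refine ⟨v, hv.2, fun k => ?_, fun k => h.2.1 fun z hz => ?_, fun k => h.2.2 ⟨?_, ?_⟩⟩
  · exact hv'.2 ((mem_insert.1 (k hv'.1)).resolve_left hvv)
  · exact (mem_insert.1 (k hz)).resolve_left (S.ne hv.1 hz).symm
  · exact (mem_insert.1 k.1).resolve_left hvx.symm
  · exact (mem_insert.1 k.2).resolve_left (S.ne hv.1 S.hy).symm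

lemma Setup.ext (S : Setup A B x y) {F : Finset V} (h : NS A B x y F)
    (hc : #F + 3 ≤ Fintype.card V) : ∃ v ∉ F, NS A B x y (insert v F) := by
  have h1 := S.card
  have h2 := S.split F
  by_cases h3 : #(F ∩ A) + 2 ≤ #A
  · exact S.ext_aux h h3
  · obtain ⟨v, hv, k⟩ := S.symm.ext_aux (NS_symm.2 h) (by omega)
    exact ⟨v, hv, NS_symm.1 k⟩

lemma Setup.NS_card (S : Setup A B x y) {F : Finset V} (h : NS A B x y F) :
    #F + 2 ≤ Fintype.card V := by
  have h1 := S.card
  have h2 := S.split F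
  have h3 : #(F ∩ A) < #A := card_lt_card ⟨inter_subset_right, fun k => h.1 (k.trans inter_subset_left)⟩
  have h4 : #(F ∩ B) < #B :=
    card_lt_card ⟨inter_subset_right, fun k => h.2.1 (k.trans inter_subset_left)⟩
  omega

lemma Setup.NS_grow (S : Setup A B x y) (k : ℕ) : ∀ {F : Finset V}, NS A B x y F →
    #F + k + 2 = Fintype.card V → ∃ G, F ⊆ G ∧ NS A B x y G ∧ #G + 2 = Fintype.card V := by
  induction k with
  | zero => exact fun {F} h hc => ⟨F, Subset.rfl, h, hc⟩
  | succ k ih =>
    intro F h hc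
    obtain ⟨v, hv, h'⟩ := S.ext h (by omega)
    obtain ⟨G, k1, k2⟩ := ih h' (by rw [card_insert_of_notMem hv]; omega)
    exact ⟨G, (subset_insert _ _).trans k1, k2⟩

omit [Fintype V] [DecidableEq V] in
lemma facet_iff {Δ : Set (Finset V)} {Φ : Finset V → Prop} (h1 : ∀ F, Φ F → F ∈ Δ)
    (h2 : ∀ G ∈ Δ, ∃ F, Φ F ∧ G ⊆ F) (h3 : ∀ F F', Φ F → Φ F' → F ⊆ F' → F' = F) (F : Finset V) :
    IsFacet Δ F ↔ Φ F := by
  constructor
  · rintro ⟨hF, hmax⟩
    obtain ⟨G, hG, hFG⟩ := h2 F hF
    rwa [← hmax G (h1 G hG) hFG]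
  · intro hF
    refine ⟨h1 F hF, fun G hG hFG => ?_⟩
    obtain ⟨F', hF', hGF⟩ := h2 G hG
    have := h3 F F' hF hF' (hFG.trans hGF)
    exact Subset.antisymm (this ▸ hGF) hFG

/-- The middle complexes. -/
def D (A B : Finset V) (x y : V) (t : ℕ) : Set (Finset V) :=
  {F | #F ≤ t ∨ (#F = t + 1 ∧ NS A B x y F) ∨ (#F = t + 2 ∧ Pure A B F)}

def D0 (A B : Finset V) (x y : V) : Set (Finset V) :=
  {F | #F ≤ 1 ∨ (#F = 2 ∧ (Pure A B F ∨ F = {x, y}))}

def D1 (A B : Finset V) (x y : V) : Set (Finset V) :=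
  {F | #F ≤ 1 ∨ (#F = 2 ∧ NS A B x y F ∧ ¬ Pure A B F)}

def D2 (A B : Finset V) (x y : V) : Set (Finset V) := {F | Pure A B F ∨ F = {x, y}}

def D3 (A B : Finset V) (x y : V) : Set (Finset V) := {F | NS A B x y F}

def D4 (A B : Finset V) (x y : V) : Set (Finset V) :=
  {F | #F + 3 ≤ Fintype.card V ∨ (#F + 2 = Fintype.card V ∧ ¬ NS A B x y F)}

omit [Fintype V] [DecidableEq V] in
lemma Setup.special_pure (S : Setup A B x y) {F G : Finset V} (hFG : F ⊆ G) (hG : Pure A B G)
    (h : ¬ NS A B x y F) : #G ≤ #F := by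
  rcases hG with hG | hG
  · exact card_le_card (hG.trans (S.special_sub (hFG.trans hG) h))
  · exact card_le_card (hG.trans (S.symm.special_sub (hFG.trans hG) (mt NS_symm.1 h)))

omit [Fintype V] in
lemma pure_ext {F : Finset V} (h : NS A B x y F) (hp : Pure A B F) :
    ∃ v ∉ F, Pure A B (insert v F) := by
  rcases hp with hp | hp
  · obtain ⟨v, hv, hv'⟩ := not_subset.1 h.1
    exact ⟨v, hv', Or.inl (insert_subset hv hp)⟩
  · obtain ⟨v, hv, hv'⟩ := not_subset.1 h.2.1
    exact ⟨v, hv', Or.inr (insert_subset hv hp)⟩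

lemma Setup.facet_D (S : Setup A B x y) {t : ℕ} (ht : t + 3 ≤ Fintype.card V) (F : Finset V) :
    IsFacet (D A B x y t) F ↔ (#F = t ∧ ¬ NS A B x y F) ∨
      (#F = t + 1 ∧ NS A B x y F ∧ ¬ Pure A B F) ∨ (#F = t + 2 ∧ Pure A B F) := by
  constructor
  · rintro ⟨hF, hmax⟩
    rcases hF with h | ⟨h, hN⟩ | h
    · rcases h.lt_or_eq with h | h
      · obtain ⟨G, k1, -, k2⟩ := exists_subsuperset_card_eq (subset_univ F) h.le
          (by rw [card_univ]; omega)
        have := hmax G (Or.inl k2.le) k1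
        subst this
        omega
      · refine Or.inl ⟨h, fun hN => ?_⟩
        obtain ⟨v, hv, k⟩ := S.ext hN (by omega)
        have := hmax _ (Or.inr (Or.inl ⟨by rw [card_insert_of_notMem hv, h], k⟩))
          (subset_insert _ _)
        exact hv (this ▸ mem_insert_self _ _)
    · refine Or.inr (Or.inl ⟨h, hN, fun hp => ?_⟩)
      obtain ⟨v, hv, k⟩ := pure_ext hN hp
      have := hmax _ (Or.inr (Or.inr ⟨by rw [card_insert_of_notMem hv, h], k⟩))
        (subset_insert _ _)
      exact hv (this ▸ mem_insert_self _ _)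
    · exact Or.inr (Or.inr h)
  · intro h
    refine ⟨?_, fun G hG hFG => (eq_of_subset_of_card_le hFG ?_).symm⟩
    · rcases h with h | h | h
      · exact Or.inl h.1.le
      · exact Or.inr (Or.inl ⟨h.1, h.2.1⟩)
      · exact Or.inr (Or.inr h)
    · rcases h with h | h | h <;> rcases hG with k | k | k
      · omega
      · exact absurd (k.2.mono hFG) h.2
      · exact S.special_pure hFG k.2 h.2
      · omega
      · omega
      · exact absurd (k.2.mono hFG) h.2.2
      · omega
      · omega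
      · omega

omit [Fintype V] in
lemma Setup.full_side (S : Setup A B x y) {s : ℕ} {G : Finset V} (hA : A ⊆ G)
    (hc : s + 2 ≤ #G) (hp : ¬ Pure A B G) (hxy : ¬ (x ∈ G ∧ y ∈ G)) :
    ∃ F ⊆ G, (#F = s + 1 ∧ ¬ NS A B x y F) ∨
      (#F = s + 1 + 1 ∧ NS A B x y F ∧ ¬ Pure A B F) ∨ (#F = s + 1 + 2 ∧ Pure A B F) := by
  obtain ⟨u, hu, w, hw, huG, hwG⟩ := S.of_not_pure hp
  by_cases h1 : #A ≤ s + 1
  · obtain ⟨F, k1, k2, k3⟩ := exists_subsuperset_card_eq hA h1 (by omega)
    exact ⟨F, k2, Or.inl ⟨k3, fun k => k.1 k1⟩⟩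
  by_cases h2 : s + 3 ≤ #A
  · obtain ⟨F, k1, k2⟩ := exists_subset_card_eq h2
    exact ⟨F, k1.trans hA, Or.inr (Or.inr ⟨k2, Or.inl k1⟩)⟩
  · obtain ⟨v, hv, hvu⟩ := S.other u
    have := S.ins (T := A.erase u) (u := v) (w := w) (erase_subset _ _)
      (fun k => by simpa using k hu) (mem_erase.2 ⟨hvu, hv⟩) hw
      (fun k => hxy ⟨hA S.hx, k.2 ▸ hwG⟩)
    refine ⟨_, insert_subset hwG ((erase_subset _ _).trans hA),
      Or.inr (Or.inl ⟨?_, this.1, this.2.1⟩)⟩
    rw [this.2.2, card_erase_of_mem hu]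
    omega

lemma Setup.delta_D (S : Setup A B x y) {s : ℕ} (hs : s + 4 ≤ Fintype.card V) (G : Finset V) :
    G ∈ delta (D A B x y (s + 1)) ↔ G ∈ D A B x y s ∨ (s = 0 ∧ G = {x, y}) := by
  have hxy : #({x, y} : Finset V) = 2 := card_pair (S.ne S.hx S.hy)
  simp only [delta, Set.mem_ofPred_eq, S.facet_D (t := s + 1) (by omega)]
  constructor
  · intro h
    by_contra hn
    have key : ∃ F ⊆ G, (#F = s + 1 ∧ ¬ NS A B x y F) ∨
        (#F = s + 1 + 1 ∧ NS A B x y F ∧ ¬ Pure A B F) ∨ (#F = s + 1 + 2 ∧ Pure A B F) := by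
      simp only [D, Set.mem_ofPred_eq, not_or, not_and] at hn
      obtain ⟨⟨n1, n2, n3⟩, n4⟩ := hn
      by_cases c1 : #G = s + 1
      · exact ⟨G, Subset.rfl, Or.inl ⟨c1, n2 c1⟩⟩
      by_cases c2 : Pure A B G
      · have : s + 3 ≤ #G := by
          by_contra k
          exact n3 (by omega) c2
        obtain ⟨F, k1, k2⟩ := exists_subset_card_eq this
        exact ⟨F, k1, Or.inr (Or.inr ⟨k2, c2.mono k1⟩)⟩
      by_cases c3 : x ∈ G ∧ y ∈ G
      · by_cases c4 : s = 0
        · obtain ⟨F, k1, k2, k3, k4⟩ := S.cross_pair c2 (n4 c4)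
          exact ⟨F, k1, Or.inr (Or.inl ⟨by omega, k2, k3⟩)⟩
        · obtain ⟨F, k1, k2, k3⟩ := exists_subsuperset_card_eq (n := s + 1)
            (insert_subset c3.1 (singleton_subset_iff.2 c3.2)) (by omega) (by omega)
          exact ⟨F, k2, Or.inl ⟨k3, fun k => k.2.2 ⟨k1 (by simp), k1 (by simp)⟩⟩⟩
      by_cases c5 : A ⊆ G
      · exact S.full_side c5 (by omega) c2 c3
      by_cases c6 : B ⊆ G
      · obtain ⟨F, k1, k2⟩ := S.symm.full_side (s := s) c6 (by omega) (mt Pure_symm.1 c2)
          (fun k => c3 k.symm)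
        rw [NS_symm, Pure_symm] at k2
        exact ⟨F, k1, k2⟩
      · obtain ⟨u, hu, w, hw, huG, hwG⟩ := S.of_not_pure c2
        obtain ⟨F, k1, k2, k3⟩ := exists_subsuperset_card_eq (n := s + 2)
          (insert_subset huG (singleton_subset_iff.2 hwG))
          (by rw [card_pair (S.ne hu hw)]; omega) (by omega)
        exact ⟨F, k2, Or.inr (Or.inl ⟨k3, NS.mono ⟨c5, c6, c3⟩ k2,
          S.not_pure hu hw (k1 (by simp)) (k1 (by simp))⟩)⟩
    obtain ⟨F, k1, k2⟩ := key
    exact h F k2 k1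
  · intro hG F hF hFG
    have hc := card_le_card hFG
    rcases hG with (k | k | k) | ⟨rfl, rfl⟩ <;> rcases hF with h | h | h <;> try omega
    · exact h.2 (k.2.mono hFG)
    · have := S.special_pure hFG k.2 h.2
      omega
    · exact h.2.2 (k.2.mono hFG)
    · apply h.2
      refine ⟨fun k => ?_, fun k => ?_, fun k => ?_⟩
      · have := card_le_card k
        have := S.cA
        omega
      · have := card_le_card k
        have := S.cB
        omega
      · have := card_le_card (insert_subset k.1 (singleton_subset_iff.2 k.2))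
        omega
    · have := eq_of_subset_of_card_le hFG (by omega)
      exact h.2.1.2.2 ⟨by rw [this]; simp, by rw [this]; simp⟩

omit [Fintype V] in
lemma Setup.small_NS (S : Setup A B x y) {F : Finset V} (h : #F ≤ 1) : NS A B x y F := by
  have hxy : #({x, y} : Finset V) = 2 := card_pair (S.ne S.hx S.hy)
  refine ⟨fun k => ?_, fun k => ?_, fun k => ?_⟩
  · have := card_le_card k
    have := S.cA
    omega
  · have := card_le_card k
    have := S.cB
    omega
  · have := card_le_card (insert_subset k.1 (singleton_subset_iff.2 k.2))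
    omega

lemma Setup.delta_last (S : Setup A B x y) : delta (D A B x y 1) = D0 A B x y := by
  have hxy : #({x, y} : Finset V) = 2 := card_pair (S.ne S.hx S.hy)
  have h1 := S.card
  have h2 := S.cA
  have h3 := S.cB
  ext G
  rw [S.delta_D (s := 0) (by omega)]
  simp only [D, D0, Set.mem_ofPred_eq]
  constructor
  · rintro ((h | h | h) | ⟨-, rfl⟩)
    · left; omega
    · left; omega
    · exact Or.inr ⟨h.1, Or.inl h.2⟩
    · exact Or.inr ⟨hxy, Or.inr rfl⟩
  · rintro (h | ⟨h, k | k⟩)
    · by_cases h0 : #G ≤ 0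
      · exact Or.inl (Or.inl h0)
      · exact Or.inl (Or.inr (Or.inl ⟨by omega, S.small_NS h⟩))
    · exact Or.inl (Or.inr (Or.inr ⟨h, k⟩))
    · exact Or.inr ⟨trivial, k⟩

omit [Fintype V] [DecidableEq V] in
lemma Setup.small_pure (S : Setup A B x y) {F : Finset V} (h : #F ≤ 1) : Pure A B F := by
  by_contra k
  obtain ⟨u, hu, w, hw, huG, hwG⟩ := S.of_not_pure k
  exact S.ne hu hw (card_le_one.1 h u huG w hwG)

omit [Fintype V] in
lemma Setup.delta0 (S : Setup A B x y) : delta (D0 A B x y) = D1 A B x y := by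
  have hxy : #({x, y} : Finset V) = 2 := card_pair (S.ne S.hx S.hy)
  have hf := facet_iff (Δ := D0 A B x y) (Φ := fun F => #F = 2 ∧ (Pure A B F ∨ F = {x, y}))
    (fun F h => Or.inr h) (by
      rintro G (h | h)
      · rcases S.small_pure h with k | k
        · obtain ⟨F, k1, k2, k3⟩ := exists_subsuperset_card_eq (n := 2) k (by omega) S.cA
          exact ⟨F, ⟨k3, Or.inl (Or.inl k2)⟩, k1⟩
        · obtain ⟨F, k1, k2, k3⟩ := exists_subsuperset_card_eq (n := 2) k (by omega) S.cB
          exact ⟨F, ⟨k3, Or.inl (Or.inr k2)⟩, k1⟩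
      · exact ⟨G, h, Subset.rfl⟩)
    (fun F F' h h' k => (eq_of_subset_of_card_le k (by omega)).symm)
  ext G
  simp only [delta, D1, Set.mem_ofPred_eq, hf]
  constructor
  · intro h
    have hA : #(G ∩ A) ≤ 1 := by
      by_contra k
      obtain ⟨F, k1, k2⟩ := exists_subset_card_eq (n := 2) (s := G ∩ A) (by omega)
      exact h F ⟨k2, Or.inl (Or.inl (k1.trans inter_subset_right))⟩ (k1.trans inter_subset_left)
    have hB : #(G ∩ B) ≤ 1 := by
      by_contra k
      obtain ⟨F, k1, k2⟩ := exists_subset_card_eq (n := 2) (s := G ∩ B) (by omega)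
      exact h F ⟨k2, Or.inl (Or.inr (k1.trans inter_subset_right))⟩ (k1.trans inter_subset_left)
    have hs := S.split G
    by_cases h1 : #G ≤ 1
    · exact Or.inl h1
    have h2 : #G = 2 := by omega
    refine Or.inr ⟨h2, ⟨fun k => ?_, fun k => ?_, fun k => ?_⟩,
      fun k => h G ⟨h2, Or.inl k⟩ Subset.rfl⟩
    · rw [inter_eq_right.2 k] at hA
      have := S.cA
      omega
    · rw [inter_eq_right.2 k] at hB
      have := S.cB
      omega
    · exact h _ ⟨hxy, Or.inr rfl⟩ (insert_subset k.1 (singleton_subset_iff.2 k.2))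
  · rintro (h | h) F hF hFG
    · have := card_le_card hFG
      omega
    · have := eq_of_subset_of_card_le hFG (by omega)
      subst this
      rcases hF.2 with k | k
      · exact h.2.2 k
      · exact h.2.1.2.2 ⟨by rw [k]; simp, by rw [k]; simp⟩

omit [Fintype V] in
lemma Setup.delta1 (S : Setup A B x y) : delta (D1 A B x y) = D2 A B x y := by
  have hxy : #({x, y} : Finset V) = 2 := card_pair (S.ne S.hx S.hy)
  have : Nonempty V := ⟨x⟩
  have hf := facet_iff (Δ := D1 A B x y)
    (Φ := fun F => #F = 2 ∧ NS A B x y F ∧ ¬ Pure A B F)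
    (fun F h => Or.inr h) (by
      rintro G (h | h)
      · obtain ⟨u, hu, hux⟩ := S.other x
        obtain ⟨w, hw, hwy⟩ := S.symm.other y
        obtain ⟨z, hz⟩ := card_le_one_iff_subset_singleton.1 h
        by_cases hzA : z ∈ A
        · have := S.pair hzA hw fun k => hwy k.2
          exact ⟨_, ⟨this.2.2, this.1, this.2.1⟩, hz.trans (by simp)⟩
        · have := S.pair hu ((S.symm.mem z).2 hzA) fun k => hux k.1
          exact ⟨_, ⟨this.2.2, this.1, this.2.1⟩, hz.trans (by simp)⟩
      · exact ⟨G, h, Subset.rfl⟩)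
    (fun F F' h h' k => (eq_of_subset_of_card_le k (by omega)).symm)
  ext G
  simp only [delta, D2, Set.mem_ofPred_eq, hf]
  constructor
  · intro h
    by_contra hn
    push Not at hn
    obtain ⟨F, k1, k2, k3, k4⟩ := S.cross_pair hn.1 hn.2
    exact h F ⟨k4, k2, k3⟩ k1
  · rintro (h | rfl) F hF hFG
    · exact hF.2.2 (h.mono hFG)
    · have := eq_of_subset_of_card_le hFG (by omega)
      exact hF.2.1.2.2 ⟨by rw [this]; simp, by rw [this]; simp⟩

omit [Fintype V] in
lemma Setup.delta2 (S : Setup A B x y) : delta (D2 A B x y) = D3 A B x y := by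
  have hxy : #({x, y} : Finset V) = 2 := card_pair (S.ne S.hx S.hy)
  have hf := facet_iff (Δ := D2 A B x y) (Φ := fun F => F = A ∨ F = B ∨ F = {x, y})
    (by
      rintro F (rfl | rfl | rfl)
      · exact Or.inl (Or.inl Subset.rfl)
      · exact Or.inl (Or.inr Subset.rfl)
      · exact Or.inr rfl)
    (by
      rintro G ((h | h) | h)
      · exact ⟨A, Or.inl rfl, h⟩
      · exact ⟨B, Or.inr (Or.inl rfl), h⟩
      · exact ⟨_, Or.inr (Or.inr rfl), h.subset⟩)
    (by
      have h1 := S.cA
      have h2 := S.cB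
      have hx' : x ∈ ({x, y} : Finset V) := by simp
      have hy' : y ∈ ({x, y} : Finset V) := by simp
      intro F F' h h' k
      rcases h with h | h | h <;> rcases h' with h' | h' | h' <;> rw [h, h'] at k ⊢ <;>
        first
        | rfl
        | exact (eq_of_subset_of_card_le k (by omega)).symm
        | exact ((S.mem x).1 S.hx (k S.hx)).elim
        | exact ((S.mem y).1 (k S.hy) S.hy).elim
        | exact ((S.mem y).1 (k hy') S.hy).elim
        | exact ((S.mem x).1 S.hx (k hx')).elim)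
  ext G
  simp only [delta, D3, Set.mem_ofPred_eq, hf]
  constructor
  · intro h
    exact ⟨h A (Or.inl rfl), h B (Or.inr (Or.inl rfl)), fun k =>
      h _ (Or.inr (Or.inr rfl)) (insert_subset k.1 (singleton_subset_iff.2 k.2))⟩
  · rintro h F (rfl | rfl | rfl) k
    · exact h.1 k
    · exact h.2.1 k
    · exact h.2.2 ⟨k (by simp), k (by simp)⟩

lemma Setup.big_NS_aux (S : Setup A B x y) {G : Finset V} (hB : B ⊆ G)
    (hc : Fintype.card V ≤ #G + 1) :
    ∃ F ⊆ G, NS A B x y F ∧ #F + 2 = Fintype.card V := by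
  have h1 := S.card
  have h2 := S.split G
  have h3 := S.cA
  rw [inter_eq_right.2 hB] at h2
  obtain ⟨T, k1, k2⟩ := exists_subset_card_eq (n := #A - 1) (s := G ∩ A) (by omega)
  have hTA : T ⊆ A := k1.trans inter_subset_right
  have hdis : Disjoint T (B.erase y) := by
    rw [disjoint_left]
    intro v hv hv'
    exact (S.mem v).1 (hTA hv) (mem_of_mem_erase hv')
  have hyn : y ∉ T ∪ B.erase y := by
    rw [mem_union, not_or]
    exact ⟨fun k => (S.mem y).1 (hTA k) S.hy, notMem_erase _ _⟩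
  refine ⟨T ∪ B.erase y, union_subset (k1.trans inter_subset_left) ((erase_subset _ _).trans hB),
    ⟨fun k => ?_, fun k => hyn (k S.hy), fun k => hyn k.2⟩, ?_⟩
  · have : A ⊆ T := fun v hv => (mem_union.1 (k hv)).resolve_right
      fun k' => (S.mem v).1 hv (mem_of_mem_erase k')
    have := card_le_card this
    omega
  · rw [card_union_of_disjoint hdis, card_erase_of_mem S.hy, k2]
    have := S.cB
    omega

lemma Setup.big_full (S : Setup A B x y) {G : Finset V} (hc : Fintype.card V ≤ #G + 1) :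
    A ⊆ G ∨ B ⊆ G := by
  have h1 := S.card
  have h2 := S.split G
  have h3 : #(G ∩ A) ≤ #A := card_le_card inter_subset_right
  have h4 : #(G ∩ B) ≤ #B := card_le_card inter_subset_right
  by_cases h : #A ≤ #(G ∩ A)
  · left
    rw [← eq_of_subset_of_card_le inter_subset_right h]
    exact inter_subset_left
  · right
    rw [← eq_of_subset_of_card_le (inter_subset_right (s₁ := G) (s₂ := B)) (by omega)]
    exact inter_subset_left

lemma Setup.delta3 (S : Setup A B x y) : delta (D3 A B x y) = D4 A B x y := by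
  have hf := facet_iff (Δ := D3 A B x y)
    (Φ := fun F => NS A B x y F ∧ #F + 2 = Fintype.card V) (fun F h => h.1) (by
      intro G h
      have := S.NS_card h
      obtain ⟨F, k1, k2⟩ := S.NS_grow (Fintype.card V - #G - 2) h (by omega)
      exact ⟨F, k2, k1⟩)
    (fun F F' h h' k => (eq_of_subset_of_card_le k (by omega)).symm)
  ext G
  simp only [delta, D4, Set.mem_ofPred_eq, hf]
  constructor
  · intro h
    by_cases h1 : #G + 3 ≤ Fintype.card V
    · exact Or.inl h1
    by_cases h2 : #G + 2 = Fintype.card V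
    · exact Or.inr ⟨h2, fun k => h G ⟨k, h2⟩ Subset.rfl⟩
    exfalso
    rcases S.big_full (G := G) (by omega) with k | k
    · obtain ⟨F, k1, k2, k3⟩ := S.symm.big_NS_aux k (by omega)
      exact h F ⟨NS_symm.1 k2, k3⟩ k1
    · obtain ⟨F, k1, k2, k3⟩ := S.big_NS_aux k (by omega)
      exact h F ⟨k2, k3⟩ k1
  · rintro (h | h) F hF hFG
    · have := card_le_card hFG
      omega
    · have := eq_of_subset_of_card_le hFG (by omega)
      subst this
      exact h.2 hF.1

lemma Setup.delta4 (S : Setup A B x y) {t : ℕ} (ht : t + 3 = Fintype.card V) :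
    delta (D4 A B x y) = D A B x y t := by
  have h1 := S.card
  have hA := S.cA
  have hB := S.cB
  have hf := facet_iff (Δ := D4 A B x y)
    (Φ := fun F => #F + 2 = Fintype.card V ∧ ¬ NS A B x y F) (fun F h => Or.inr h) (by
      rintro G (h | h)
      · obtain ⟨G', g1, -, g2⟩ := exists_subsuperset_card_eq (n := t) (subset_univ G) (by omega)
          (by rw [card_univ]; omega)
        have h2 := S.split G'
        have h3 : #(G' ∩ A) ≤ #A := card_le_card inter_subset_right
        have h4 : #(G' ∩ B) ≤ #B := card_le_card inter_subset_right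
        have h5 := card_union_add_card_inter G' A
        have h6 := card_union_add_card_inter G' B
        by_cases c : #A ≤ #(G' ∩ A) + 1
        · obtain ⟨F, k1, -, k2⟩ := exists_subsuperset_card_eq (n := t + 1)
            (subset_univ (G' ∪ A)) (by omega) (by rw [card_univ]; omega)
          exact ⟨F, ⟨by omega, fun k => k.1 (subset_union_right.trans k1)⟩,
            g1.trans (subset_union_left.trans k1)⟩
        · obtain ⟨F, k1, -, k2⟩ := exists_subsuperset_card_eq (n := t + 1)
            (subset_univ (G' ∪ B)) (by omega) (by rw [card_univ]; omega)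
          exact ⟨F, ⟨by omega, fun k => k.2.1 (subset_union_right.trans k1)⟩,
            g1.trans (subset_union_left.trans k1)⟩
      · exact ⟨G, h, Subset.rfl⟩)
    (fun F F' h h' k => (eq_of_subset_of_card_le k (by omega)).symm)
  ext G
  simp only [delta, D, Set.mem_ofPred_eq, hf]
  constructor
  · intro h
    by_cases c1 : #G ≤ t
    · exact Or.inl c1
    by_cases c2 : #G = t + 1
    · refine Or.inr (Or.inl ⟨c2, ?_⟩)
      by_contra k
      exact h G ⟨by omega, k⟩ Subset.rfl
    exfalso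
    rcases S.big_full (G := G) (by omega) with k | k
    · obtain ⟨F, k1, k2, k3⟩ := exists_subsuperset_card_eq (n := t + 1) k (by omega) (by omega)
      exact h F ⟨by omega, fun k' => k'.1 k1⟩ k2
    · obtain ⟨F, k1, k2, k3⟩ := exists_subsuperset_card_eq (n := t + 1) k (by omega) (by omega)
      exact h F ⟨by omega, fun k' => k'.2.1 k1⟩ k2
  · rintro (h | h | h) F hF hFG
    · have := card_le_card hFG
      omega
    · exact hF.2 (h.2.mono hFG)
    · rcases h.2 with k | k <;> have := card_le_card k <;> omega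

lemma Setup.iter5 (S : Setup A B x y) (j : ℕ) : ∀ t, 1 ≤ t → t + j + 3 = Fintype.card V →
    delta^[5 + j] (D0 A B x y) = D A B x y t := by
  induction j with
  | zero =>
    intro t _ ht
    change delta (delta (delta (delta (delta (D0 A B x y))))) = _
    rw [S.delta0, S.delta1, S.delta2, S.delta3, S.delta4 ht]
  | succ j ih =>
    intro t h1 ht
    rw [← add_assoc, Function.iterate_succ_apply', ih (t + 1) (by omega) (by omega)]
    ext G
    rw [S.delta_D (by omega)]
    constructor
    · rintro (h | h)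
      · exact h
      · omega
    · exact Or.inl

omit [Fintype V] in
lemma not_iso_of_three {Δ : Set (Finset V)} (h : ∃ F ∈ Δ, 3 ≤ #F) : ¬ Iso Δ (D0 A B x y) := by
  rintro ⟨π, hπ⟩
  obtain ⟨F, hF, hc⟩ := h
  have := (hπ F).1 hF
  simp only [D0, Set.mem_ofPred_eq, card_map] at this
  omega

lemma Setup.main (S : Setup A B x y) (h5 : 5 ≤ Fintype.card V) :
    IsNFNumber (D0 A B x y) (Fintype.card V + 2) := by
  have h1 := S.card
  have hA := S.cA
  have hB := S.cB
  obtain ⟨P, hP, hPc⟩ : ∃ P, Pure A B P ∧ #P = 3 := by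
    by_cases c : 3 ≤ #A
    · obtain ⟨P, k1, k2⟩ := exists_subset_card_eq c
      exact ⟨P, Or.inl k1, k2⟩
    · obtain ⟨P, k1, k2⟩ := exists_subset_card_eq (n := 3) (s := B) (by omega)
      exact ⟨P, Or.inr k1, k2⟩
  obtain ⟨M, -, hM, hMc⟩ := S.NS_grow (Fintype.card V - 2) (F := ∅) (S.small_NS (by simp))
    (by simp; omega)
  constructor
  · refine ⟨by omega, Equiv.refl V, fun F => ?_⟩
    have e : Fintype.card V + 2 = (5 + (Fintype.card V - 4)) + 1 := by omega
    rw [e, Function.iterate_succ_apply', S.iter5 _ 1 le_rfl (by omega), S.delta_last]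
    simp
  · rintro k ⟨hk, hiso⟩
    by_contra hlt
    by_cases c5 : 5 ≤ k
    · obtain ⟨j, rfl⟩ : ∃ j, k = 5 + j := ⟨k - 5, by omega⟩
      rw [S.iter5 j (Fintype.card V - 3 - j) (by omega) (by omega)] at hiso
      refine not_iso_of_three ?_ hiso
      by_cases c1 : Fintype.card V - 3 - j = 1
      · exact ⟨P, Or.inr (Or.inr ⟨by omega, hP⟩), hPc.ge⟩
      · obtain ⟨F, k1, k2⟩ := exists_subset_card_eq (n := Fintype.card V - 3 - j + 1) (s := M)
          (by omega)
        exact ⟨F, Or.inr (Or.inl ⟨k2, hM.mono k1⟩), by omega⟩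
    have hk4 : k = 1 ∨ k = 2 ∨ k = 3 ∨ k = 4 := by omega
    rcases hk4 with rfl | rfl | rfl | rfl
    · change Iso (delta (D0 A B x y)) _ at hiso
      rw [S.delta0] at hiso
      obtain ⟨π, hπ⟩ := hiso
      have hQ : #(P.map π.symm.toEmbedding) = 3 := by rw [card_map, hPc]
      have h2 := S.split (P.map π.symm.toEmbedding)
      have key : ∀ F ⊆ P.map π.symm.toEmbedding, #F = 2 → ¬ Pure A B F := by
        intro F hF hc
        have hsub : F.map π.toEmbedding ⊆ P := by
          intro v hv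
          obtain ⟨w, hw, rfl⟩ := mem_map.1 hv
          obtain ⟨z, hz, rfl⟩ := mem_map.1 (hF hw)
          simpa using hz
        rcases (hπ F).2 (Or.inr ⟨by rw [card_map, hc], Or.inl (hP.mono hsub)⟩) with k | k
        · omega
        · exact k.2.2
      by_cases c : 2 ≤ #(P.map π.symm.toEmbedding ∩ A)
      · obtain ⟨F, k1, k2⟩ := exists_subset_card_eq c
        exact key F (k1.trans inter_subset_left) k2 (Or.inl (k1.trans inter_subset_right))
      · obtain ⟨F, k1, k2⟩ := exists_subset_card_eq (n := 2)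
          (s := P.map π.symm.toEmbedding ∩ B) (by omega)
        exact key F (k1.trans inter_subset_left) k2 (Or.inr (k1.trans inter_subset_right))
    · change Iso (delta (delta (D0 A B x y))) _ at hiso
      rw [S.delta0, S.delta1] at hiso
      exact not_iso_of_three ⟨P, Or.inl hP, hPc.ge⟩ hiso
    · change Iso (delta (delta (delta (D0 A B x y)))) _ at hiso
      rw [S.delta0, S.delta1, S.delta2] at hiso
      exact not_iso_of_three ⟨M, hM, by omega⟩ hiso
    · change Iso (delta (delta (delta (delta (D0 A B x y))))) _ at hiso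
      rw [S.delta0, S.delta1, S.delta2, S.delta3] at hiso
      obtain ⟨F, k1, -, k2⟩ := exists_subsuperset_card_eq (n := Fintype.card V - 2)
        (subset_univ A) (by omega) (by rw [card_univ]; omega)
      exact not_iso_of_three ⟨F, Or.inr ⟨by omega, fun k => k.1 k1⟩, by omega⟩ hiso

/-- The NF-number of the dumbbell graph `B_{n,m}` is `n + m + 2` whenever `n, m ≥ 2` and
`(n, m) ≠ (2, 2)`. -/
theorem result (n m : ℕ) (hn : 2 ≤ n) (hm : 2 ≤ m) (hnm : (n, m) ≠ (2, 2)) :
    IsNFNumber (graphComplex (dumbbell n m)) (n + m + 2) := by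
  let A : Finset (Fin n ⊕ Fin m) := univ.map Function.Embedding.inl
  let B : Finset (Fin n ⊕ Fin m) := univ.map Function.Embedding.inr
  let x : Fin n ⊕ Fin m := Sum.inl ⟨0, by omega⟩
  let y : Fin n ⊕ Fin m := Sum.inr ⟨0, by omega⟩
  have S : Setup A B x y := by
    refine ⟨?_, by simp [A, x], by simp [B, y], by simpa [A] using hn, by simpa [B] using hm⟩
    rintro (i | i) <;> simp [A, B]
  have hadj : ∀ u v, (dumbbell n m).Adj u v →
      #({u, v} : Finset _) = 2 ∧ (Pure A B {u, v} ∨ ({u, v} : Finset _) = {x, y}) := by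
    intro u v h
    refine ⟨card_pair h.ne, ?_⟩
    rcases u with i | i <;> rcases v with j | j
    · exact Or.inl (Or.inl (by simp [A, insert_subset_iff]))
    · obtain ⟨h1, h2⟩ := h
      right
      rw [show i = ⟨0, by omega⟩ from Fin.ext h1, show j = ⟨0, by omega⟩ from Fin.ext h2]
    · obtain ⟨h1, h2⟩ := h
      right
      rw [show i = ⟨0, by omega⟩ from Fin.ext h1, show j = ⟨0, by omega⟩ from Fin.ext h2,
        pair_comm]
    · exact Or.inl (Or.inr (by simp [B, insert_subset_iff]))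
  have hpure : ∀ F, #F = 2 → Pure A B F → F ∈ graphComplex (dumbbell n m) := by
    intro F hc hp
    obtain ⟨u, v, huv, rfl⟩ := card_eq_two.1 hc
    refine ⟨u, v, ?_, Subset.rfl⟩
    rcases u with i | i <;> rcases v with j | j
    · exact fun k => huv (congrArg _ k)
    · rcases hp with k | k <;> simp [A, B, insert_subset_iff] at k
    · rcases hp with k | k <;> simp [A, B, insert_subset_iff] at k
    · exact fun k => huv (congrArg _ k)
  have hD : graphComplex (dumbbell n m) = D0 A B x y := by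
    ext F
    constructor
    · rintro ⟨u, v, h, hF⟩
      obtain ⟨k1, k2⟩ := hadj u v h
      by_cases c : #F ≤ 1
      · exact Or.inl c
      · have := eq_of_subset_of_card_le hF (by omega)
        subst this
        exact Or.inr ⟨k1, k2⟩
    · rintro (h | ⟨h, k | k⟩)
      · rcases S.small_pure h with k | k
        · obtain ⟨G, k1, k2, k3⟩ := exists_subsuperset_card_eq (n := 2) k (by omega) S.cA
          obtain ⟨u, v, g1, g2⟩ := hpure G k3 (Or.inl k2)
          exact ⟨u, v, g1, k1.trans g2⟩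
        · obtain ⟨G, k1, k2, k3⟩ := exists_subsuperset_card_eq (n := 2) k (by omega) S.cB
          obtain ⟨u, v, g1, g2⟩ := hpure G k3 (Or.inr k2)
          exact ⟨u, v, g1, k1.trans g2⟩
      · exact hpure F h k
      · exact ⟨x, y, ⟨rfl, rfl⟩, k.subset⟩
  have hc : Fintype.card (Fin n ⊕ Fin m) = n + m := by simp
  have h5 : 5 ≤ n + m := by
    by_contra k
    exact hnm (by rw [show n = 2 by omega, show m = 2 by omega])
  rw [hD, ← hc]
  exact S.main (by omega)

end Pool.Agent.Results.MP_0a7d83_co.Formula
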